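import Mathlib

/-!
# MP_aad82b_nt: solutions of `2^(n-2) ≡ 1 (mod n)` ending in the digit 9

We prove that there are infinitely many solutions with last digit 9 (`result`); the first one
found is `1210344599 = 73 · 337 · 49199` (`explicit_solution`).

Idea of the infinitude: from a solution `n` whose order data are kept in `Inv n e`
(`n ∣ 2^e - 1`, `e ∣ n - 2`, `Φ_e(2) ∣ n`, `e² < n - 2`, and `e` has a prime factor `≡ 1 mod 4`)
we pass to `n * Φ_{et}(2)` for a suitable `t > 1` with `e t ∣ n - 2` for which `Φ_{et}(2)` is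
coprime to `e t`; then `Φ_{et}(2) ≡ 1 (mod e t)`, and `Φ_{et}(2) ≡ 1 (mod 10)`.
-/

namespace Pool.Agent.Results.MP_aad82b_nt.LastDigitNine

open Polynomial

/-- The value `Φ_e(2)` as a natural number. -/
noncomputable def C (e : ℕ) : ℕ := ((cyclotomic e ℤ).eval 2).natAbs

lemma C_cast (e : ℕ) : (C e : ℤ) = (cyclotomic e ℤ).eval 2 := by
  unfold C
  have := cyclotomic_pos' (n := e) (R := ℤ) (x := 2) (by norm_num)
  omega

lemma one_lt_C {e : ℕ} (he : 1 < e) : 1 < C e := by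
  have := sub_one_lt_natAbs_cyclotomic_eval (n := e) (q := 2) he (by norm_num)
  unfold C
  simpa using this

lemma C_zmod (e p : ℕ) : ((C e : ℕ) : ZMod p) = (cyclotomic e (ZMod p)).eval 2 := by
  have h : (((C e : ℤ)) : ZMod p) = (((cyclotomic e ℤ).eval 2 : ℤ) : ZMod p) := by rw [C_cast]
  have h2 : (((cyclotomic e ℤ).eval 2 : ℤ) : ZMod p) = (cyclotomic e (ZMod p)).eval 2 := by
    have := (eval_intCast_map (Int.castRingHom (ZMod p)) (cyclotomic e ℤ) 2)
    rw [map_cyclotomic] at this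
    simpa using this.symm
  rw [← h2, ← h]; simp

lemma prime_dvd_C {p k f : ℕ} (hp : p.Prime) (hf : ¬ p ∣ f) :
    p ∣ C (p ^ k * f) ↔ orderOf (2 : ZMod p) = f := by
  have : Fact p.Prime := ⟨hp⟩
  have : NeZero (f : ZMod p) := ⟨fun h => hf ((ZMod.natCast_eq_zero_iff f p).1 h)⟩
  rw [← ZMod.natCast_eq_zero_iff, C_zmod]
  have h := isRoot_cyclotomic_prime_pow_mul_iff_of_charP (m := f) (k := k) (p := p)
    (R := ZMod p) (μ := 2)
  rw [IsRoot.def] at h
  rw [h]
  exact IsPrimitiveRoot.iff_orderOf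

lemma exists_split {p e : ℕ} (hp : p.Prime) (he : e ≠ 0) :
    ∃ k f, e = p ^ k * f ∧ ¬ p ∣ f ∧ (p ∣ e → 1 ≤ k) := by
  obtain ⟨k, f, hf, h⟩ := Nat.exists_eq_pow_mul_and_not_dvd he p hp.ne_one
  refine ⟨k, f, h, hf, fun hpe => ?_⟩
  rcases Nat.eq_zero_or_pos k with rfl | hk
  · exfalso; apply hf; simpa [h] using hpe
  · exact hk

lemma modEq_one_of_primes {e : ℕ} : ∀ M : ℕ, M ≠ 0 →
    (∀ p : ℕ, p.Prime → p ∣ M → p ≡ 1 [MOD e]) → M ≡ 1 [MOD e] := by
  intro M
  induction M using Nat.recOnMul with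
  | zero => intro h; exact absurd rfl h
  | one => intro _ _; rfl
  | prime p hp => intro _ h; exact h p hp dvd_rfl
  | mul a b ha hb =>
    intro h0 h
    have ha' := ha (left_ne_zero_of_mul h0) (fun p hp hd => h p hp (hd.mul_right _))
    have hb' := hb (right_ne_zero_of_mul h0) (fun p hp hd => h p hp (hd.mul_left _))
    simpa using ha'.mul hb'

lemma C_modEq_one {e : ℕ} (he : 1 < e) (hc : Nat.Coprime (C e) e) : C e ≡ 1 [MOD e] := by
  apply modEq_one_of_primes _ (by have := one_lt_C he; omega)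
  intro p hp hpd
  have : Fact p.Prime := ⟨hp⟩
  have hpe : ¬ p ∣ e := fun h => by
    have := Nat.dvd_gcd hpd h
    rw [hc] at this
    exact hp.one_lt.ne' (Nat.dvd_one.1 this)
  have ho : orderOf (2 : ZMod p) = e := by
    have := (prime_dvd_C (k := 0) hp hpe).1 (by simpa using hpd)
    exact this
  have h2 : (2 : ZMod p) ≠ 0 := by
    intro h
    rw [h] at ho
    have : orderOf (0 : ZMod p) = 0 := by
      rw [orderOf_eq_zero_iff']
      intro n hn
      rw [zero_pow hn.ne']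
      exact zero_ne_one
    omega
  have hd : e ∣ p - 1 := by
    rw [← ho]
    apply orderOf_dvd_of_pow_eq_one
    exact ZMod.pow_card_sub_one_eq_one h2
  have := (Nat.modEq_iff_dvd' hp.one_lt.le).2 hd
  exact this.symm

lemma two_pow_four : (2 : ZMod 5) ^ 4 = 1 := by decide

lemma two_pow_three : (2 : ZMod 5) ^ 3 = 3 := by decide

lemma one_ne_five : ¬ ((1 : ZMod 5) = 2 ∨ (1 : ZMod 5) = 3) := by decide

lemma C_mod_five_aux {q : ℕ} (hq : q.Prime) (hq4 : q % 4 = 1) (g : ℕ) (hg : g % 2 = 1)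
    (hqg : ¬ q ∣ g) : ∀ k : ℕ, (cyclotomic (q ^ (k + 1) * g) (ZMod 5)).eval 2 = 1 := by
  have : Fact (Nat.Prime 5) := ⟨by norm_num⟩
  have h2q : (2 : ZMod 5) ^ q = 2 := by
    have h : q = 4 * (q / 4) + 1 := by omega
    rw [h, pow_succ, pow_mul]
    rw [two_pow_four, one_pow, one_mul]
  have hne : (cyclotomic g (ZMod 5)).eval 2 ≠ 0 := by
    intro h0
    have hg0 : g ≠ 0 := by omega
    obtain ⟨k, f, hgf, hf, -⟩ := exists_split (p := 5) (by norm_num) hg0
    have : NeZero (f : ZMod 5) := ⟨fun h => hf ((ZMod.natCast_eq_zero_iff f 5).1 h)⟩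
    rw [hgf] at h0
    have h := (isRoot_cyclotomic_prime_pow_mul_iff_of_charP (m := f) (k := k) (p := 5)
      (R := ZMod 5) (μ := 2)).1 h0
    have ho := IsPrimitiveRoot.iff_orderOf.1 h
    have h4 : (2 : ZMod 5) ^ f = 1 := by rw [← ho]; exact pow_orderOf_eq_one _
    have hfodd : f % 2 = 1 := by
      rcases Nat.even_or_odd f with he | he
      · exfalso
        obtain ⟨r, hr⟩ := he
        rw [hgf, hr] at hg
        have : 5 ^ k * (r + r) = 2 * (5 ^ k * r) := by ring
        omega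
      · exact Nat.odd_iff.1 he
    have h5 : (2 : ZMod 5) ^ f = 2 ∨ (2 : ZMod 5) ^ f = 3 := by
      have hf4 : f % 4 = 1 ∨ f % 4 = 3 := by omega
      rcases hf4 with hh | hh
      · left
        have h' : f = 4 * (f / 4) + 1 := by omega
        rw [h', pow_add, pow_mul, two_pow_four, one_pow, one_mul, pow_one]
      · right
        have h' : f = 4 * (f / 4) + 3 := by omega
        rw [h', pow_add, pow_mul, two_pow_four, one_pow, one_mul, two_pow_three]
    rw [h4] at h5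
    exact one_ne_five h5
  intro k
  induction k with
  | zero =>
    have h := cyclotomic_expand_eq_cyclotomic_mul hq hqg (ZMod 5)
    have h' := congrArg (eval (2 : ZMod 5)) h
    rw [expand_eval, h2q, eval_mul, mul_comm g q] at h'
    rw [zero_add, pow_one]
    have h'' : ((cyclotomic (q * g) (ZMod 5)).eval 2 - 1) * (cyclotomic g (ZMod 5)).eval 2 = 0 := by
      rw [sub_mul, one_mul, ← h']; ring
    rcases mul_eq_zero.1 h'' with h3 | h3
    · exact sub_eq_zero.1 h3
    · exact absurd h3 hne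
  | succ k ih =>
    have hdiv : q ∣ q ^ (k + 1) * g := Dvd.dvd.mul_right (dvd_pow_self q (by omega)) g
    have h := cyclotomic_expand_eq_cyclotomic hq hdiv (ZMod 5)
    have h' := congrArg (eval (2 : ZMod 5)) h
    rw [expand_eval, h2q, ih] at h'
    rw [show q ^ (k + 1 + 1) * g = q ^ (k + 1) * g * q by ring]
    exact h'.symm

lemma C_mod_five {q e : ℕ} (hq : q.Prime) (hq4 : q % 4 = 1) (he : e % 2 = 1) (hqe : q ∣ e) :
    C e % 5 = 1 := by
  obtain ⟨k, g, h, hg, hk⟩ := exists_split hq (show e ≠ 0 by omega)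
  have hk1 := hk hqe
  obtain ⟨j, rfl⟩ : ∃ j, k = j + 1 := ⟨k - 1, by omega⟩
  have hgodd : g % 2 = 1 := by
    rcases Nat.even_or_odd g with hev | hev
    · exfalso
      obtain ⟨r, hr⟩ := hev
      rw [h, hr] at he
      have : q ^ (j + 1) * (r + r) = 2 * (q ^ (j + 1) * r) := by ring
      omega
    · exact Nat.odd_iff.1 hev
  have h1 := C_mod_five_aux hq hq4 g hgodd hg j
  rw [← h, ← C_zmod] at h1
  have h2 : ((C e : ℕ) : ZMod 5) = ((1 : ℕ) : ZMod 5) := by rw [h1]; simp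
  have h3 := (ZMod.natCast_eq_natCast_iff _ _ _).1 h2
  exact h3

/-- The invariant. -/
structure Inv (n e : ℕ) : Prop where
  mod10 : n % 10 = 9
  dvd : n ∣ 2 ^ e - 1
  e1 : 1 < e
  edvd : e ∣ n - 2
  q : ∃ q : ℕ, q.Prime ∧ q % 4 = 1 ∧ q ∣ e
  cdvd : C e ∣ n
  size : e ^ 2 < n - 2

lemma step {n e t : ℕ} (hn : n % 10 = 9) (hd : n ∣ 2 ^ e - 1) (he : 1 < e) (ht : 1 < t)
    (hdv : e * t ∣ n - 2) (hq : ∃ q : ℕ, q.Prime ∧ q % 4 = 1 ∧ q ∣ e)
    (hc : Nat.Coprime (C (e * t)) (e * t)) : Inv (n * C (e * t)) (e * t) ∧ n < n * C (e * t) := by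
  have het : 1 < e * t := by nlinarith
  have hodd : (e * t) % 2 = 1 := by
    rcases Nat.even_or_odd (e * t) with hev | hev
    · exfalso
      have h2 : 2 ∣ n - 2 := (even_iff_two_dvd.1 hev).trans hdv
      omega
    · exact Nat.odd_iff.1 hev
  obtain ⟨q, hqp, hq4, hqe⟩ := hq
  have h5 := C_mod_five hqp hq4 hodd (hqe.mul_right t)
  have hC1 := one_lt_C het
  have hmod := C_modEq_one het hc
  have hdvd : n * C (e * t) ∣ 2 ^ (e * t) - 1 := by
    have hmem : e ∈ (e * t).properDivisors := by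
      rw [Nat.mem_properDivisors]
      exact ⟨dvd_mul_right _ _, by nlinarith⟩
    have h := X_pow_sub_one_mul_cyclotomic_dvd_X_pow_sub_one_of_dvd ℤ hmem
    have h' := map_dvd (evalRingHom (2 : ℤ)) h
    simp only [coe_evalRingHom, eval_mul, eval_sub, eval_pow, eval_X, eval_one] at h'
    rw [← C_cast] at h'
    have h2e : ((2 ^ e - 1 : ℕ) : ℤ) = 2 ^ e - 1 := by
      rw [Nat.cast_sub Nat.one_le_two_pow]; push_cast; ring
    have h2et : ((2 ^ (e * t) - 1 : ℕ) : ℤ) = 2 ^ (e * t) - 1 := by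
      rw [Nat.cast_sub Nat.one_le_two_pow]; push_cast; ring
    rw [← h2e, ← h2et] at h'
    have h'' : (2 ^ e - 1) * C (e * t) ∣ 2 ^ (e * t) - 1 := by exact_mod_cast h'
    exact (mul_dvd_mul_right hd _).trans h''
  have hCodd : C (e * t) % 2 = 1 := by
    rcases Nat.even_or_odd (C (e * t)) with hev | hev
    · exfalso
      have h2 : 2 ∣ 2 ^ (e * t) - 1 :=
        (even_iff_two_dvd.1 hev).trans ((dvd_mul_left _ _).trans hdvd)
      have h3 : 2 ∣ 2 ^ (e * t) := dvd_pow_self 2 (by omega)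
      have h4 : 1 ≤ 2 ^ (e * t) := Nat.one_le_two_pow
      omega
    · exact Nat.odd_iff.1 hev
  have hC10 : C (e * t) % 10 = 1 := by omega
  have hn2 : 2 ≤ n := by omega
  have hle : e * t ≤ n - 2 := Nat.le_of_dvd (by omega) hdv
  have hCge : e * t + 1 ≤ C (e * t) := by
    have h := (Nat.modEq_iff_dvd' hC1.le).1 hmod.symm
    have := Nat.le_of_dvd (by omega) h
    omega
  refine ⟨⟨?_, hdvd, het, ?_, ⟨q, hqp, hq4, hqe.mul_right t⟩, dvd_mul_left _ _, ?_⟩, ?_⟩
  · rw [Nat.mul_mod, hn, hC10]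
  · have h1 : n * C (e * t) ≡ 2 * 1 [MOD e * t] :=
      Nat.ModEq.mul ((Nat.modEq_iff_dvd' hn2).2 hdv).symm hmod
    rw [mul_one] at h1
    exact (Nat.modEq_iff_dvd' (by nlinarith)).1 h1.symm
  · have : (e * t + 2) * (e * t + 1) ≤ n * C (e * t) := Nat.mul_le_mul (by omega) hCge
    have h3 : (e * t + 2) * (e * t + 1) = (e * t) ^ 2 + 3 * (e * t) + 2 := by ring
    omega
  · nlinarith

lemma not_coprime_C {e : ℕ} (he : 1 < e) (h : ¬ Nat.Coprime (C e) e) :
    ∃ p k f : ℕ, p.Prime ∧ 1 ≤ k ∧ e = p ^ k * f ∧ ¬ p ∣ f ∧ orderOf (2 : ZMod p) = f := by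
  obtain ⟨p, hp, hpC, hpe⟩ := Nat.Prime.not_coprime_iff_dvd.1 h
  obtain ⟨k, f, hkf, hf, hk⟩ := exists_split hp (show e ≠ 0 by omega)
  refine ⟨p, k, f, hp, hk hpe, hkf, hf, ?_⟩
  rw [hkf] at hpC
  exact (prime_dvd_C hp hf).1 hpC

lemma orderOf_two_lt {p : ℕ} (hp : p.Prime) : orderOf (2 : ZMod p) < p := by
  have : Fact p.Prime := ⟨hp⟩
  by_cases h2 : (2 : ZMod p) = 0
  · rw [h2]
    have : orderOf (0 : ZMod p) = 0 := by
      rw [orderOf_eq_zero_iff']
      intro n hn
      rw [zero_pow hn.ne']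
      exact zero_ne_one
    rw [this]; exact hp.pos
  · have hd : orderOf (2 : ZMod p) ∣ p - 1 :=
      orderOf_dvd_of_pow_eq_one (ZMod.pow_card_sub_one_eq_one h2)
    have := Nat.le_of_dvd (by have := hp.one_lt; omega) hd
    have := hp.one_lt
    omega

lemma exists_t {n e : ℕ} (h : Inv n e) :
    ∃ t, 1 < t ∧ e * t ∣ n - 2 ∧ Nat.Coprime (C (e * t)) (e * t) := by
  obtain ⟨c, hc⟩ := h.edvd
  have he1 := h.e1
  have hsz := h.size
  have hce : e < c := by
    rw [hc, sq] at hsz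
    exact lt_of_mul_lt_mul_left hsz (Nat.zero_le _)
  have hn9 := h.mod10
  by_contra hcon
  push Not at hcon
  -- `r` the largest prime factor of `c`
  have hc1 : 1 < c := by omega
  have hne : c.primeFactors.Nonempty := by
    rw [Nat.nonempty_primeFactors]; exact hc1
  obtain ⟨r, hr, hmax⟩ := Finset.exists_max_image c.primeFactors id hne
  simp only [id] at hmax
  have hrp : r.Prime := Nat.prime_of_mem_primeFactors hr
  have hrc : r ∣ c := Nat.dvd_of_mem_primeFactors hr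
  have hmax' : ∀ s : ℕ, s.Prime → s ∣ c → s ≤ r := fun s hs hsc =>
    hmax s (Nat.mem_primeFactors.2 ⟨hs, hsc, by omega⟩)
  have hrn : r ∣ n - 2 := by rw [hc]; exact hrc.mul_left e
  -- facts on `r`: `r ∤ n`
  have hrnn : ¬ r ∣ n := by
    intro hh
    have : r ∣ 2 := by
      have h2 : 2 = n - (n - 2) := by omega
      rw [h2]; exact Nat.dvd_sub hh hrn
    have hr2 : r = 2 := (Nat.prime_dvd_prime_iff_eq hrp Nat.prime_two).1 this
    rw [hr2] at hh
    omega
  have b1 := hcon r hrp.one_lt (by rw [hc]; exact mul_dvd_mul_left e hrc)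
  have b2 := hcon c hc1 (by rw [hc])
  obtain ⟨p, k, f, hp, hk, hef, hpf, ho⟩ := not_coprime_C (by nlinarith [hrp.one_lt]) b1
  obtain ⟨p', k', f', hp', hk', hef', hpf', ho'⟩ := not_coprime_C (by nlinarith) b2
  have hfp : f < p := by rw [← ho]; exact orderOf_two_lt hp
  have hfp' : f' < p' := by rw [← ho']; exact orderOf_two_lt hp'
  -- `p ≠ r`
  have hpr : p ≠ r := by
    rintro rfl
    obtain ⟨j, rfl⟩ : ∃ j, k = j + 1 := ⟨k - 1, by omega⟩
    have h1 : e = p ^ j * f := by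
      have : e * p = (p ^ j * f) * p := by rw [hef]; ring
      exact Nat.eq_of_mul_eq_mul_right hp.pos this
    have h2 : p ∣ C e := by rw [h1]; exact (prime_dvd_C hp hpf).2 ho
    exact hrnn (h2.trans h.cdvd)
  -- so `r ∣ f`, `r < p`, `p ∣ e`
  have hrf : r ∣ f := by
    have h1 : r ∣ p ^ k * f := by rw [← hef]; exact dvd_mul_left _ _
    rcases hrp.dvd_mul.1 h1 with h2 | h2
    · exact absurd ((Nat.prime_dvd_prime_iff_eq hrp hp).1 (hrp.dvd_of_dvd_pow h2)).symm hpr
    · exact h2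
  have hf0 : 0 < f := by
    rcases Nat.eq_zero_or_pos f with h0 | h0
    · exact absurd (by rw [h0]; exact dvd_zero p) hpf
    · exact h0
  have hrltp : r < p := lt_of_le_of_lt (Nat.le_of_dvd hf0 hrf) hfp
  have hpe : p ∣ e := by
    have h1 : p ∣ e * r := by rw [hef]; exact Dvd.dvd.mul_right (dvd_pow_self p (by omega)) f
    rcases hp.dvd_mul.1 h1 with h2 | h2
    · exact h2
    · exact absurd ((Nat.prime_dvd_prime_iff_eq hp hrp).1 h2) hpr
  have hple : p ≤ e := Nat.le_of_dvd (by omega) hpe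
  have hpc : ¬ p ∣ c := fun hh => by
    have := hmax' p hp hh
    omega
  -- `p' = p`
  have hpp : p' = p := by
    by_contra hne'
    -- `p ∣ f'`, so `p < p'`, `p' ∣ e * c`
    have h1 : p ∣ p' ^ k' * f' := by rw [← hef']; exact hpe.mul_right c
    have h2 : p ∣ f' := by
      rcases hp.dvd_mul.1 h1 with h2 | h2
      · exact absurd ((Nat.prime_dvd_prime_iff_eq hp hp').1 (hp.dvd_of_dvd_pow h2)).symm hne'
      · exact h2
    have hf0' : 0 < f' := by
      rcases Nat.eq_zero_or_pos f' with h0 | h0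
      · exact absurd (by rw [h0]; exact dvd_zero p') hpf'
      · exact h0
    have h3 : p < p' := lt_of_le_of_lt (Nat.le_of_dvd hf0' h2) hfp'
    have h4 : p' ∣ e * c := by rw [hef']; exact Dvd.dvd.mul_right (dvd_pow_self p' (by omega)) f'
    have h5 : p' ∣ e := by
      rcases hp'.dvd_mul.1 h4 with h5 | h5
      · exact h5
      · exfalso
        have := hmax' p' hp' h5
        omega
    have h6 : p' ∣ p ^ k * f := by rw [← hef]; exact h5.mul_right r
    rcases hp'.dvd_mul.1 h6 with h7 | h7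
    · exact hne' ((Nat.prime_dvd_prime_iff_eq hp' hp).1 (hp'.dvd_of_dvd_pow h7))
    · have := Nat.le_of_dvd hf0 h7
      omega
  subst hpp
  have hff : f = f' := by rw [← ho, ← ho']
  subst hff
  -- compare: `p^k * f * c = e * r * c = p^k' * f * r`
  have hcomp : p' ^ k * c = p' ^ k' * r := by
    have h1 : (p' ^ k * f) * c = (p' ^ k' * f) * r := by rw [← hef, ← hef']; ring
    have h2 : f * (p' ^ k * c) = f * (p' ^ k' * r) := by
      calc f * (p' ^ k * c) = (p' ^ k * f) * c := by ring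
        _ = (p' ^ k' * f) * r := h1
        _ = f * (p' ^ k' * r) := by ring
    exact Nat.eq_of_mul_eq_mul_left hf0 h2
  have hpr' : ¬ p' ∣ r := fun hh => hpr ((Nat.prime_dvd_prime_iff_eq hp hrp).1 hh)
  have hkk : k = k' := by
    rcases lt_trichotomy k k' with hlt | heq | hgt
    · exfalso
      obtain ⟨d, rfl⟩ : ∃ d, k' = k + (d + 1) := ⟨k' - k - 1, by omega⟩
      rw [pow_add, mul_assoc] at hcomp
      have := Nat.eq_of_mul_eq_mul_left (pow_pos hp.pos k) hcomp
      apply hpc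
      rw [this]
      exact Dvd.dvd.mul_right (dvd_pow_self p' (by omega)) r
    · exact heq
    · exfalso
      obtain ⟨d, rfl⟩ : ∃ d, k = k' + (d + 1) := ⟨k - k' - 1, by omega⟩
      rw [pow_add, mul_assoc] at hcomp
      have := Nat.eq_of_mul_eq_mul_left (pow_pos hp.pos k') hcomp
      apply hpr'
      rw [← this]
      exact Dvd.dvd.mul_right (dvd_pow_self p' (by omega)) c
  subst hkk
  have hcr : c = r := Nat.eq_of_mul_eq_mul_left (pow_pos hp.pos k) hcomp
  omega

lemma inv_solution {n e : ℕ} (h : Inv n e) : n ∣ 2 ^ (n - 2) - 1 :=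
  h.dvd.trans (Nat.pow_sub_one_dvd_pow_sub_one 2 h.edvd)

lemma next {n e : ℕ} (h : Inv n e) : ∃ n' e', Inv n' e' ∧ n < n' := by
  obtain ⟨t, ht, hd, hc⟩ := exists_t h
  have := step h.mod10 h.dvd h.e1 ht hd h.q hc
  exact ⟨_, _, this.1, this.2⟩

lemma dvd_of_zmod {n e : ℕ} (h : (2 : ZMod n) ^ e = 1) : n ∣ 2 ^ e - 1 := by
  have h1 : ((2 ^ e : ℕ) : ZMod n) = ((1 : ℕ) : ZMod n) := by
    rw [Nat.cast_pow, Nat.cast_one, Nat.cast_ofNat]; exact h
  have h2 := (ZMod.natCast_eq_natCast_iff _ _ _).1 h1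
  exact (Nat.modEq_iff_dvd' Nat.one_le_two_pow).1 h2.symm

lemma base_pow : (2 : ZMod 1210344599) ^ 1549737 = 1 := by reduce_mod_char

lemma base_dvd : 1210344599 ∣ 2 ^ 1549737 - 1 := dvd_of_zmod base_pow

lemma base_ne : (2 : ZMod 1447) ^ 11781 ≠ 1 := by
  have h : (2 : ZMod 1447) ^ 11781 = 282 := by reduce_mod_char
  rw [h]
  decide

lemma orderOf_ne {p e f : ℕ} (h : (2 : ZMod p) ^ e ≠ 1) (hf : f ∣ e) :
    orderOf (2 : ZMod p) ≠ f := by
  intro ho
  apply h
  exact orderOf_dvd_iff_pow_eq_one.1 (ho ▸ hf)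

/-- `e₁ = 1549737 * 11 = 3² · 7 · 11 · 17 · 1447`, and `gcd (Φ_{e₁}(2)) e₁ = 1`. -/
lemma base_coprime : Nat.Coprime (C (1549737 * 11)) (1549737 * 11) := by
  by_contra hcon
  obtain ⟨p, k, f, hp, hk, hef, hpf, ho⟩ := not_coprime_C (by norm_num) hcon
  have hfac : (1549737 * 11 : ℕ) = 3 * 3 * 7 * 11 * 17 * 1447 := by norm_num
  have hf0 : 0 < f := by
    rcases Nat.eq_zero_or_pos f with h0 | h0
    · exact absurd (by rw [h0]; exact dvd_zero p) hpf
    · exact h0
  have hfp : f < p := by rw [← ho]; exact orderOf_two_lt hp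
  have hpd : p ∣ 3 * 3 * 7 * 11 * 17 * 1447 := by
    rw [← hfac, hef]; exact Dvd.dvd.mul_right (dvd_pow_self p (by omega)) f
  have h1447 : Nat.Prime 1447 := by norm_num
  have hp' : p = 1447 := by
    by_contra hne
    have h1 : 1447 ∣ p ^ k * f := by rw [← hef, hfac]; exact dvd_mul_left _ _
    have h2 : 1447 ∣ f := by
      rcases h1447.dvd_mul.1 h1 with h3 | h3
      · exact absurd ((Nat.prime_dvd_prime_iff_eq h1447 hp).1 (h1447.dvd_of_dvd_pow h3)).symm hne
      · exact h3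
    have h3 := Nat.le_of_dvd hf0 h2
    have h4 : p ∣ 3 * 3 * 7 * 11 * 17 := by
      rcases hp.dvd_mul.1 hpd with h5 | h5
      · exact h5
      · exact absurd ((Nat.prime_dvd_prime_iff_eq hp h1447).1 h5) hne
    have h5 : p ∣ 3 ∨ p ∣ 7 ∨ p ∣ 11 ∨ p ∣ 17 := by
      rcases hp.dvd_mul.1 h4 with h | h
      · rcases hp.dvd_mul.1 h with h | h
        · rcases hp.dvd_mul.1 h with h | h
          · rcases hp.dvd_mul.1 h with h | h <;> exact Or.inl h
          · exact Or.inr (Or.inl h)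
        · exact Or.inr (Or.inr (Or.inl h))
      · exact Or.inr (Or.inr (Or.inr h))
    have h6 : p ≤ 17 := by
      rcases h5 with h | h | h | h <;> have := Nat.le_of_dvd (by norm_num) h <;> omega
    omega
  subst hp'
  -- `f ∣ 3 * 3 * 7 * 11 * 17`
  have hfd : f ∣ 11781 := by
    have h1 : f ∣ 11781 * 1447 := by
      have : f ∣ 1549737 * 11 := by rw [hef]; exact dvd_mul_left _ _
      simpa using this
    have h2 : Nat.Coprime f 1447 := ((Nat.Prime.coprime_iff_not_dvd h1447).2 hpf).symm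
    exact h2.dvd_of_dvd_mul_right h1
  exact orderOf_ne base_ne hfd ho

theorem inv_first : ∃ n e, Inv n e := by
  refine ⟨_, _, (step (n := 1210344599) (e := 1549737) (t := 11) (by norm_num) base_dvd
    (by norm_num) (by norm_num) (by norm_num) ⟨17, by norm_num, by norm_num, by norm_num⟩
    base_coprime).1⟩

/-- An explicit solution: `1210344599 = 73 · 337 · 49199` ends in the digit 9 and divides
`2 ^ 1210344597 - 1`. -/
theorem explicit_solution :
    2 ≤ 1210344599 ∧ 1210344599 ∣ 2 ^ (1210344599 - 2) - 1 ∧ 1210344599 % 10 = 9 :=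
  ⟨by norm_num, base_dvd.trans (Nat.pow_sub_one_dvd_pow_sub_one 2 (by norm_num)), by norm_num⟩

/-- There are infinitely many `n ≥ 2` with `n ∣ 2 ^ (n - 2) - 1` and last decimal digit 9. -/
theorem result : {n : ℕ | 2 ≤ n ∧ n ∣ 2 ^ (n - 2) - 1 ∧ n % 10 = 9}.Infinite := by
  have key : {n : ℕ | ∃ e, Inv n e}.Infinite := by
    apply Set.infinite_of_not_bddAbove
    rintro ⟨B, hB⟩
    have : ∀ k : ℕ, ∃ n e, Inv n e ∧ k ≤ n := by
      intro k
      induction k with
      | zero => obtain ⟨n, e, h⟩ := inv_first; exact ⟨n, e, h, Nat.zero_le _⟩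
      | succ k ih =>
        obtain ⟨n, e, h, hk⟩ := ih
        obtain ⟨n', e', h', hlt⟩ := next h
        exact ⟨n', e', h', by omega⟩
    obtain ⟨n, e, h, hk⟩ := this (B + 1)
    have := hB ⟨e, h⟩
    omega
  refine key.mono ?_
  rintro n ⟨e, h⟩
  refine ⟨?_, inv_solution h, h.mod10⟩
  have := h.mod10
  omega

end Pool.Agent.Results.MP_aad82b_nt.LastDigitNine
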